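import Mathlib

open MeasureTheory ProbabilityTheory Filter Topology

namespace Pool.Agent.QueueAssoc

/-! ### The model -/

/-- The nondecreasing rearrangement of a vector. -/
noncomputable def rearr {k : ℕ} (x : Fin k → ℝ) : Fin k → ℝ := x ∘ Tuple.sort x

/-- The workload vector just after an arrival: `rearr (w 0 + s, w 1, …, w (k - 1))`. -/
noncomputable def afterArrival {k : ℕ} [NeZero k] (w : Fin k → ℝ) (s : ℝ) : Fin k → ℝ :=
  rearr (Function.update w 0 (w 0 + s))

/-- The Kiefer-Wolfowitz recursion: the workload vector found by the next customer, if the present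
one finds `w`, needs service time `s`, and the next one arrives after time `t`. -/
noncomputable def nextWorkload {k : ℕ} [NeZero k] (w : Fin k → ℝ) (s t : ℝ) : Fin k → ℝ :=
  fun i => max (afterArrival w s i - t) 0

/-- The workload vectors found by the customers `0, 1, 2, …` if the system is empty when customer
`0` arrives. -/
noncomputable def fromEmpty {Ω : Type*} {k : ℕ} [NeZero k] (S T : ℕ → Ω → ℝ) :
    ℕ → Ω → Fin k → ℝ
  | 0, _ => 0
  | n + 1, ω => nextWorkload (fromEmpty S T n ω) (S n ω) (T n ω)

/-- `W n` is the workload vector found by customer `n` in a stationary GI/GI/k queue with service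
times `S n` and interarrival times `T n`, with relative traffic intensity below one.  The law of
`W n` is the stationary law, and it is the limit law reached from an initially empty system. -/
structure IsStationaryQueue {Ω : Type*} [MeasurableSpace Ω] (P : Measure Ω) {k : ℕ} [NeZero k]
    (S T : ℕ → Ω → ℝ) (W : ℕ → Ω → Fin k → ℝ) : Prop where
  measurable_S : ∀ n, Measurable (S n)
  measurable_T : ∀ n, Measurable (T n)
  measurable_W : ∀ n, Measurable (W n)
  nonneg_S : ∀ n ω, 0 ≤ S n ω
  nonneg_T : ∀ n ω, 0 ≤ T n ω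
  ident_S : ∀ n, IdentDistrib (S n) (S 0) P P
  ident_T : ∀ n, IdentDistrib (T n) (T 0) P P
  /-- all service times and all interarrival times are mutually independent -/
  indep : iIndepFun (Sum.elim S T) P
  /-- they are independent of the initial workload vector -/
  indep_W : IndepFun (W 0) (fun ω (i : ℕ ⊕ ℕ) => Sum.elim S T i ω) P
  integrable_S : Integrable (S 0) P
  integrable_T : Integrable (T 0) P
  mean_S_pos : 0 < ∫ ω, S 0 ω ∂P
  mean_T_pos : 0 < ∫ ω, T 0 ω ∂P
  /-- the relative traffic intensity `ES / (k ET)` is below one -/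
  traffic : (∫ ω, S 0 ω ∂P) / (k * ∫ ω, T 0 ω ∂P) < 1
  recursion : ∀ n ω, W (n + 1) ω = nextWorkload (W n ω) (S n ω) (T n ω)
  stationary : ∀ n, IdentDistrib (W n) (W 0) P P
  /-- the stationary law is the limit in distribution from an initially empty system -/
  limit : ∀ f : BoundedContinuousFunction (Fin k → ℝ) ℝ,
    Tendsto (fun n => ∫ ω, f (fromEmpty S T n ω) ∂P) atTop (𝓝 (∫ ω, f (W 0 ω) ∂P))

/-- A family `X` of real random variables is associated if `cov (f(X), g(X)) ≥ 0` for all bounded
measurable `f`, `g` that are nondecreasing in each coordinate. -/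
def IsAssociated {Ω ι : Type*} [MeasurableSpace Ω] (P : Measure Ω) (X : Ω → ι → ℝ) : Prop :=
  ∀ f g : (ι → ℝ) → ℝ, Measurable f → Measurable g → Monotone f → Monotone g →
    (∃ C, ∀ x, |f x| ≤ C) → (∃ C, ∀ x, |g x| ≤ C) →
      0 ≤ cov[fun ω => f (X ω), fun ω => g (X ω); P]

/-- The family `V 0, V 1 - V 0, …, V (k - 1) - V 0, -t`. -/
def diffFamily {k : ℕ} [NeZero k] (V : Fin k → ℝ) (t : ℝ) : Fin k ⊕ Unit → ℝ
  | Sum.inl i => if i = 0 then V 0 else V i - V 0
  | Sum.inr _ => -t

end Pool.Agent.QueueAssoc
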