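import Mathlib
import Pool.Agent.QueueAssoc.Defs

open MeasureTheory ProbabilityTheory Filter Topology

namespace Pool.Agent.QueueAssoc

/-! ### The counterexample -/

section construction

variable (m : ℕ)

/-- the probability space: independent fair coins -/
abbrev Om : Type := ℕ ⊕ ℕ → Bool

/-- the law of a fair coin -/
noncomputable def coin : Measure Bool := (PMF.uniformOfFintype Bool).toMeasure

noncomputable instance : IsProbabilityMeasure coin := by unfold coin; infer_instance

/-- the law of independent fair coins -/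
noncomputable def PP : Measure Om := Measure.infinitePi fun _ => coin

noncomputable instance : IsProbabilityMeasure PP := by unfold PP; infer_instance

/-- service time as a function of the coin -/
noncomputable def sv (b : Bool) : ℝ := if b then 2 * m ^ 2 + 2 * m else 2 * m ^ 2 + m

/-- interarrival time as a function of the coin -/
noncomputable def tv (b : Bool) : ℝ := if b then 2 * m + 1 else 2 * m

/-- the service times, indexed from the far past -/
noncomputable def A (j : ℕ) (ω : Om) : ℝ := sv m (ω (Sum.inl j))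

/-- the interarrival times, indexed from the far past -/
noncomputable def B (j : ℕ) (ω : Om) : ℝ := tv m (ω (Sum.inr j))

/-- residual work, at time `n + m`, of the customer with index `n + i` -/
noncomputable def R (n i : ℕ) (ω : Om) : ℝ :=
  A m (n + i) ω - ∑ l ∈ Finset.Ico (n + i) (n + m), B m l ω

/-- workload vectors, when the customers with index below `J` are ignored -/
noncomputable def Wf (J n : ℕ) (ω : Om) (i : Fin (m + 1)) : ℝ :=
  if i = 0 then 0 else if n + i ≤ J then 0 else
    A m (n + i - 1) ω - ∑ l ∈ Finset.Ico (n + i - 1) (n + m), B m l ω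

variable {m}

lemma sv_mem (b : Bool) : (2 * m ^ 2 + m : ℝ) ≤ sv m b ∧ sv m b ≤ 2 * m ^ 2 + 2 * m := by
  unfold sv
  have : (0:ℝ) ≤ m := Nat.cast_nonneg m
  cases b <;> simp <;> linarith

lemma tv_mem (b : Bool) : (2 * m : ℝ) ≤ tv m b ∧ tv m b ≤ 2 * m + 1 := by
  unfold tv
  cases b <;> simp

lemma sum_B_le (a b : ℕ) (ω : Om) :
    ∑ l ∈ Finset.Ico a b, B m l ω ≤ ((b - a : ℕ) : ℝ) * (2 * m + 1) := by
  have := Finset.sum_le_card_nsmul (Finset.Ico a b) (fun l => B m l ω) (2 * (m : ℝ) + 1)
    fun l _ => (tv_mem _).2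
  rwa [Nat.card_Ico, nsmul_eq_mul] at this

lemma le_sum_B (a b : ℕ) (ω : Om) :
    ((b - a : ℕ) : ℝ) * (2 * m) ≤ ∑ l ∈ Finset.Ico a b, B m l ω := by
  have := Finset.card_nsmul_le_sum (Finset.Ico a b) (fun l => B m l ω) (2 * (m : ℝ))
    fun l _ => (tv_mem _).1
  rwa [Nat.card_Ico, nsmul_eq_mul] at this

/-- positivity of the remaining work of the last `m` customers -/
lemma resid_nonneg {a b : ℕ} (h : b ≤ a + m) (ω : Om) :
    0 ≤ A m a ω - ∑ l ∈ Finset.Ico a b, B m l ω := by
  have h1 := sum_B_le (m := m) a b ω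
  have h2 := (sv_mem (m := m) (ω (Sum.inl a))).1
  have h3 : ((b - a : ℕ) : ℝ) ≤ m := by exact_mod_cast (by omega : b - a ≤ m)
  have h4 : ((b - a : ℕ) : ℝ) * (2 * m + 1) ≤ m * (2 * m + 1) :=
    mul_le_mul_of_nonneg_right h3 (by positivity)
  unfold A
  nlinarith

/-- a customer leaves before `m + 1` further interarrival times have passed -/
lemma resid_nonpos {a b : ℕ} (h : a + m + 1 ≤ b) (ω : Om) :
    A m a ω - ∑ l ∈ Finset.Ico a b, B m l ω ≤ 0 := by
  have h1 := le_sum_B (m := m) a b ω
  have h2 := (sv_mem (m := m) (ω (Sum.inl a))).2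
  have h3 : ((m + 1 : ℕ) : ℝ) ≤ ((b - a : ℕ) : ℝ) := by exact_mod_cast (by omega : m + 1 ≤ b - a)
  push_cast at h3
  have h4 : ((m:ℝ) + 1) * (2 * m) ≤ ((b - a : ℕ) : ℝ) * (2 * m) :=
    mul_le_mul_of_nonneg_right h3 (by positivity)
  unfold A
  nlinarith

/-- the residual works are increasing -/
lemma resid_mono {a b : ℕ} (h : a < b) (ω : Om) :
    A m a ω - ∑ l ∈ Finset.Ico a b, B m l ω
      ≤ A m (a + 1) ω - ∑ l ∈ Finset.Ico (a + 1) b, B m l ω := by
  rw [Finset.sum_eq_sum_Ico_succ_bot h]
  have h1 := (sv_mem (m := m) (ω (Sum.inl a))).2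
  have h2 := (sv_mem (m := m) (ω (Sum.inl (a + 1)))).1
  have h3 := (tv_mem (m := m) (ω (Sum.inr a))).1
  have h4 : (0:ℝ) ≤ m := Nat.cast_nonneg m
  unfold A B
  linarith

/-- the workload vector just after the arrival -/
noncomputable def Vf (m J n : ℕ) (ω : Om) (i : Fin (m + 1)) : ℝ :=
  if n + i < J then 0 else A m (n + i) ω - ∑ l ∈ Finset.Ico (n + i) (n + m), B m l ω

lemma Vf_monotone (J n : ℕ) (ω : Om) : Monotone (Vf m J n ω) := by
  rw [Fin.monotone_iff_le_succ]
  intro i
  unfold Vf
  simp only [Fin.val_castSucc, Fin.val_succ]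
  have hi := i.2
  by_cases h1 : n + (i : ℕ) < J
  · rw [if_pos h1]
    split_ifs
    · exact le_rfl
    · exact resid_nonneg (by omega) ω
  · rw [if_neg h1, if_neg (by omega)]
    exact resid_mono (by omega) ω

lemma afterArrival_Wf [NeZero (m + 1)] {J n : ℕ} (hJ : J ≤ n + m) (ω : Om) :
    afterArrival (Wf m J n ω) (A m (n + m) ω) = Vf m J n ω := by
  unfold afterArrival rearr
  have key : Function.update (Wf m J n ω) 0 (Wf m J n ω 0 + A m (n + m) ω) ∘ finRotate (m + 1)
      = Vf m J n ω := by
    funext i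
    rw [Function.comp_apply, finRotate_apply]
    by_cases hi : i = Fin.last m
    · subst hi
      rw [Fin.last_add_one, Function.update_self]
      unfold Wf Vf
      rw [if_pos rfl, Fin.val_last, if_neg (by omega)]
      simp
    · have hlt : (i : ℕ) < m := by
        have := i.2
        have h2 : (i : ℕ) ≠ m := fun h => hi (Fin.ext h)
        omega
      have hval : ((i + 1 : Fin (m + 1)) : ℕ) = i + 1 := Fin.val_add_one_of_lt (by
        rw [Fin.lt_def]; exact hlt)
      have hne : (i + 1 : Fin (m + 1)) ≠ 0 := by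
        intro h
        have := congrArg Fin.val h
        rw [hval] at this
        simp at this
      rw [Function.update_of_ne hne]
      unfold Wf Vf
      rw [if_neg hne, hval]
      by_cases h : n + (i : ℕ) < J
      · rw [if_pos (by omega), if_pos h]
      · rw [if_neg (by omega), if_neg h]
        have : n + ((i : ℕ) + 1) - 1 = n + i := by omega
        rw [this]
  rw [← key]
  refine (Tuple.comp_sort_eq_comp_iff_monotone.2 ?_).symm
  rw [key]
  exact Vf_monotone J n ω

lemma nextWorkload_Wf [NeZero (m + 1)] {J n : ℕ} (hJ : J ≤ n + m) (ω : Om) :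
    nextWorkload (Wf m J n ω) (A m (n + m) ω) (B m (n + m) ω) = Wf m J (n + 1) ω := by
  funext i
  unfold nextWorkload
  rw [afterArrival_Wf hJ]
  unfold Vf Wf
  have hB := (tv_mem (m := m) (ω (Sum.inr (n + m)))).1
  have hm : (0:ℝ) ≤ m := Nat.cast_nonneg m
  by_cases hi : i = 0
  · subst hi
    rw [if_pos rfl]
    refine max_eq_right ?_
    by_cases h : n + ((0 : Fin (m + 1)) : ℕ) < J
    · rw [if_pos h]
      unfold B
      linarith
    · rw [if_neg h]
      have := resid_nonpos (m := m) (a := n) (b := n + m + 1) (by omega) ω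
      rw [Finset.sum_Ico_succ_top (by omega)] at this
      simp only [Fin.coe_ofNat_eq_mod, Nat.zero_mod, add_zero]
      linarith
  · have hi' : (i : ℕ) ≠ 0 := fun h => hi (Fin.ext (by simpa using h))
    have hi2 := i.2
    rw [if_neg hi]
    by_cases h : n + (i : ℕ) < J
    · rw [if_pos h, if_pos (by omega)]
      refine max_eq_right ?_
      unfold B
      linarith
    · rw [if_neg h, if_neg (by omega)]
      have e : n + 1 + (i : ℕ) - 1 = n + i := by omega
      have e2 : n + 1 + m = n + m + 1 := by omega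
      rw [e, e2, Finset.sum_Ico_succ_top (by omega)]
      have := resid_nonneg (m := m) (a := n + i) (b := n + m + 1) (by omega) ω
      rw [Finset.sum_Ico_succ_top (by omega)] at this
      rw [max_eq_left (by linarith)]
      ring

lemma fromEmpty_eq [NeZero (m + 1)] (n : ℕ) (ω : Om) :
    fromEmpty (fun n => A m (n + m)) (fun n => B m (n + m)) n ω = Wf m m n ω := by
  induction n with
  | zero =>
    funext i
    unfold fromEmpty Wf
    have := i.2
    split_ifs
    · rfl
    · rfl
    · omega
  | succ n ih =>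
    rw [fromEmpty, ih]
    exact nextWorkload_Wf (by omega) ω

lemma Wf_eq {n : ℕ} (hn : m ≤ n) (ω : Om) : Wf m m n ω = Wf m 0 n ω := by
  funext i
  unfold Wf
  by_cases hi : i = 0
  · rw [if_pos hi, if_pos hi]
  · have hi' : (i : ℕ) ≠ 0 := fun h => hi (Fin.ext (by simpa using h))
    rw [if_neg hi, if_neg hi, if_neg (by omega), if_neg (by omega)]

/-- the shift of the index set -/
def shift (n : ℕ) : ℕ ⊕ ℕ → ℕ ⊕ ℕ
  | Sum.inl j => Sum.inl (j + n)
  | Sum.inr j => Sum.inr (j + n)

lemma shift_injective (n : ℕ) : Function.Injective (shift n) := by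
  rintro (a | a) (b | b) h
  · have h' : a + n = b + n := Sum.inl.inj h
    rw [show a = b by omega]
  · exact absurd h (by simp [shift])
  · exact absurd h (by simp [shift])
  · have h' : a + n = b + n := Sum.inr.inj h
    rw [show a = b by omega]

lemma Wf_shift (n : ℕ) (ω : Om) : Wf m 0 n ω = Wf m 0 0 (fun i => ω (shift n i)) := by
  funext i
  unfold Wf
  by_cases hi : i = 0
  · rw [if_pos hi, if_pos hi]
  · have hi' : (i : ℕ) ≠ 0 := fun h => hi (Fin.ext (by simpa using h))
    rw [if_neg hi, if_neg hi, if_neg (by omega), if_neg (by omega)]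
    have e1 : n + (i : ℕ) - 1 = (0 + (i : ℕ) - 1) + n := by omega
    have e2 : n + m = (0 + m) + n := by omega
    rw [e1, e2, ← Finset.sum_Ico_add' (fun l => B m l ω)]
    rfl

lemma map_shift (n : ℕ) : PP.map (fun (ω : Om) (i : ℕ ⊕ ℕ) => ω (shift n i)) = PP := by
  unfold PP
  exact Measure.map_infinitePi_infinitePi_of_inj (P := fun _ : ℕ ⊕ ℕ => coin)
    (shift_injective n)

lemma measurable_A (G : MeasurableSpace Om) {j : ℕ}
    (h : Measurable[G] (fun ω : Om => ω (Sum.inl j))) : Measurable[G] (A m j) :=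
  (measurable_of_countable (sv m)).comp h

lemma measurable_B (G : MeasurableSpace Om) {j : ℕ}
    (h : Measurable[G] (fun ω : Om => ω (Sum.inr j))) : Measurable[G] (B m j) :=
  (measurable_of_countable (tv m)).comp h

lemma measurable_Wf (G : MeasurableSpace Om) (J n : ℕ)
    (h1 : ∀ j < n + m, Measurable[G] (fun ω : Om => ω (Sum.inl j)))
    (h2 : ∀ j < n + m, Measurable[G] (fun ω : Om => ω (Sum.inr j))) :
    Measurable[G] (Wf m J n) := by
  refine measurable_pi_iff.2 fun i => ?_
  have hi2 := i.2
  by_cases hi : i = 0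
  · have : (fun ω => Wf m J n ω i) = fun _ => 0 := by
      funext ω; unfold Wf; rw [if_pos hi]
    rw [this]
    exact measurable_const
  · have hi' : (i : ℕ) ≠ 0 := fun h => hi (Fin.ext (by simpa using h))
    by_cases h : n + (i : ℕ) ≤ J
    · have : (fun ω => Wf m J n ω i) = fun _ => 0 := by
        funext ω; unfold Wf; rw [if_neg hi, if_pos h]
      rw [this]
      exact measurable_const
    · have : (fun ω => Wf m J n ω i) = fun ω => A m (n + i - 1) ω
          - ∑ l ∈ Finset.Ico (n + i - 1) (n + m), B m l ω := by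
        funext ω; unfold Wf; rw [if_neg hi, if_neg h]
      rw [this]
      refine (measurable_A G (h1 _ (by omega))).sub ?_
      refine Finset.measurable_fun_sum _ fun l hl => ?_
      exact measurable_B G (h2 _ (Finset.mem_Ico.1 hl).2)

lemma measurable_coord (i : ℕ ⊕ ℕ) : Measurable (fun ω : Om => ω i) := measurable_pi_apply i

lemma iIndep_coord : iIndepFun (fun (i : ℕ ⊕ ℕ) (ω : Om) => ω i) PP := by
  unfold PP
  exact iIndepFun_infinitePi (X := fun _ b => b) (fun _ => measurable_id)

/-- the σ-algebra generated by the coordinates in `s` -/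
@[reducible] def sig (s : Set (ℕ ⊕ ℕ)) : MeasurableSpace Om :=
  ⨆ i ∈ s, MeasurableSpace.comap (fun ω : Om => ω i) inferInstance

lemma measurable_sig {s : Set (ℕ ⊕ ℕ)} {i : ℕ ⊕ ℕ} (hi : i ∈ s) :
    Measurable[sig s] (fun ω : Om => ω i) := by
  refine Measurable.mono (comap_measurable (fun ω : Om => ω i)) ?_ le_rfl
  exact le_iSup₂_of_le i hi le_rfl

lemma measurable_seq (G : MeasurableSpace Om) (h1 : ∀ j, Measurable[G] (A m (j + m)))
    (h2 : ∀ j, Measurable[G] (B m (j + m))) :
    Measurable[G] (fun ω (i : ℕ ⊕ ℕ) =>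
      Sum.elim (fun n => A m (n + m)) (fun n => B m (n + m)) i ω) := by
  refine measurable_pi_iff.2 fun i => ?_
  rcases i with j | j
  · exact h1 j
  · exact h2 j

lemma indep_sig {s t : Set (ℕ ⊕ ℕ)} (hst : Disjoint s t) : Indep (sig s) (sig t) PP :=
  indep_iSup_of_disjoint (fun i => (measurable_coord i).comap_le) iIndep_coord hst

lemma integral_coord (g : Bool → ℝ) (i : ℕ ⊕ ℕ) :
    ∫ ω : Om, g (ω i) ∂PP = (g true + g false) / 2 := by
  have h1 : PP.map (fun ω : Om => ω i) = coin := by
    unfold PP
    exact Measure.infinitePi_map_eval (fun _ : ℕ ⊕ ℕ => coin) i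
  have h2 : ∫ b, g b ∂coin = (g true + g false) / 2 := by
    unfold coin
    rw [PMF.integral_eq_sum]
    simp
    ring
  rw [← h2, ← h1, integral_map (measurable_coord i).aemeasurable
    (measurable_of_countable g).aestronglyMeasurable]

lemma cylinder_pos (s : Finset (ℕ ⊕ ℕ)) (c : ℕ ⊕ ℕ → Bool) (F : Set Om)
    (h : ∀ ω : Om, (∀ i ∈ s, ω i = c i) → ω ∈ F) : 0 < PP.real F := by
  have h1 : PP (Set.pi s fun i => {c i}) = ∏ i ∈ s, coin {c i} := by
    unfold PP
    exact Measure.infinitePi_pi (μ := fun _ : ℕ ⊕ ℕ => coin) fun i _ => MeasurableSet.singleton _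
  have h2 : ∀ b : Bool, coin {b} ≠ 0 := by
    intro b
    unfold coin
    rw [PMF.toMeasure_apply_singleton _ _ (MeasurableSet.singleton _)]
    simp
  have h3 : 0 < PP (Set.pi s fun i => {c i}) := by
    rw [h1]
    exact pos_iff_ne_zero.2 (Finset.prod_ne_zero_iff.2 fun i _ => h2 _)
  have h4 : (Set.pi s fun i => {c i}) ⊆ F := by
    intro ω hω
    exact h ω fun i hi => hω i hi
  exact ENNReal.toReal_pos (h3.trans_le (measure_mono h4)).ne' (measure_ne_top _ _)

lemma A_integrable (j : ℕ) : Integrable (A m j) PP := by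
  refine Integrable.of_bound (C := 2 * (m : ℝ) ^ 2 + 2 * m)
    (measurable_A _ (measurable_coord _)).aestronglyMeasurable (ae_of_all _ fun ω => ?_)
  have := sv_mem (m := m) (ω (Sum.inl j))
  rw [Real.norm_eq_abs, abs_le]
  unfold A
  constructor
  · have : (0:ℝ) ≤ m := Nat.cast_nonneg m
    nlinarith
  · exact this.2

lemma B_integrable (j : ℕ) : Integrable (B m j) PP := by
  refine Integrable.of_bound (C := 2 * (m : ℝ) + 1)
    (measurable_B _ (measurable_coord _)).aestronglyMeasurable (ae_of_all _ fun ω => ?_)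
  have := tv_mem (m := m) (ω (Sum.inr j))
  rw [Real.norm_eq_abs, abs_le]
  unfold B
  constructor
  · have : (0:ℝ) ≤ m := Nat.cast_nonneg m
    linarith
  · exact this.2

lemma mean_A (j : ℕ) : ∫ ω, A m j ω ∂PP = 2 * m ^ 2 + 3 / 2 * m := by
  unfold A
  rw [integral_coord (sv m)]
  unfold sv
  simp
  ring

lemma mean_B (j : ℕ) : ∫ ω, B m j ω ∂PP = 2 * m + 1 / 2 := by
  unfold B
  rw [integral_coord (tv m)]
  unfold tv
  simp
  ring

lemma isStationaryQueue (hm : 1 ≤ m) [NeZero (m + 1)] :
    IsStationaryQueue PP (k := m + 1) (fun n => A m (n + m)) (fun n => B m (n + m))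
      (fun n => Wf m 0 n) where
  measurable_S n := measurable_A _ (measurable_coord _)
  measurable_T n := measurable_B _ (measurable_coord _)
  measurable_W n := measurable_Wf _ 0 n (fun _ _ => measurable_coord _)
    (fun _ _ => measurable_coord _)
  nonneg_S n ω := by
    have := (sv_mem (m := m) (ω (Sum.inl (n + m)))).1
    have h : (0:ℝ) ≤ m := Nat.cast_nonneg m
    unfold A
    nlinarith
  nonneg_T n ω := by
    have := (tv_mem (m := m) (ω (Sum.inr (n + m)))).1
    have h : (0:ℝ) ≤ m := Nat.cast_nonneg m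
    unfold B
    linarith
  ident_S n := by
    have : IdentDistrib (fun ω : Om => ω (Sum.inl (n + m))) (fun ω : Om => ω (Sum.inl (0 + m)))
        PP PP :=
      ⟨(measurable_coord _).aemeasurable, (measurable_coord _).aemeasurable, by
        unfold PP
        rw [Measure.infinitePi_map_eval (fun _ : ℕ ⊕ ℕ => coin),
          Measure.infinitePi_map_eval (fun _ : ℕ ⊕ ℕ => coin)]⟩
    exact this.comp (measurable_of_countable (sv m))
  ident_T n := by
    have : IdentDistrib (fun ω : Om => ω (Sum.inr (n + m))) (fun ω : Om => ω (Sum.inr (0 + m)))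
        PP PP :=
      ⟨(measurable_coord _).aemeasurable, (measurable_coord _).aemeasurable, by
        unfold PP
        rw [Measure.infinitePi_map_eval (fun _ : ℕ ⊕ ℕ => coin),
          Measure.infinitePi_map_eval (fun _ : ℕ ⊕ ℕ => coin)]⟩
    exact this.comp (measurable_of_countable (tv m))
  indep := by
    have h1 := iIndep_coord.precomp (shift_injective m)
    have h2 := h1.comp (fun i : ℕ ⊕ ℕ => Sum.elim (fun _ => sv m) (fun _ => tv m) i)
      (fun i => measurable_of_countable _)
    have e : (Sum.elim (fun n => A m (n + m)) (fun n => B m (n + m)) : ℕ ⊕ ℕ → Om → ℝ)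
        = fun i => (Sum.elim (fun _ => sv m) (fun _ => tv m) i) ∘ (fun ω : Om => ω (shift m i)) := by
      funext i ω
      rcases i with j | j <;> rfl
    rw [e]
    exact h2
  indep_W := by
    rw [IndepFun_iff_Indep]
    have hd : Disjoint {i : ℕ ⊕ ℕ | Sum.elim (fun j => j < m) (fun j => j < m) i}
        {i : ℕ ⊕ ℕ | ¬ Sum.elim (fun j => j < m) (fun j => j < m) i} := by
      rw [Set.disjoint_left]
      intro i h1 h2
      exact h2 h1
    refine indep_of_indep_of_le_left (indep_of_indep_of_le_right (indep_sig hd) ?_) ?_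
    · exact Measurable.comap_le (measurable_seq _
        (fun j => measurable_A _ (measurable_sig (by simp)))
        (fun j => measurable_B _ (measurable_sig (by simp))))
    · refine Measurable.comap_le (measurable_Wf _ 0 0 ?_ ?_)
      · intro j hj
        exact measurable_sig (by simpa using hj)
      · intro j hj
        exact measurable_sig (by simpa using hj)
  integrable_S := A_integrable _
  integrable_T := B_integrable _
  mean_S_pos := by
    rw [mean_A]
    have : (1:ℝ) ≤ m := by exact_mod_cast hm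
    positivity
  mean_T_pos := by
    rw [mean_B]
    positivity
  traffic := by
    rw [mean_A, mean_B]
    have : (1:ℝ) ≤ m := by exact_mod_cast hm
    rw [div_lt_one (by positivity)]
    push_cast
    nlinarith
  recursion n ω := (nextWorkload_Wf (by omega) ω).symm
  stationary n := by
    have hm0 : Measurable (Wf m 0 0) := measurable_Wf _ 0 0 (fun _ _ => measurable_coord _)
      (fun _ _ => measurable_coord _)
    have hmn : Measurable (Wf m 0 n) := measurable_Wf _ 0 n (fun _ _ => measurable_coord _)
      (fun _ _ => measurable_coord _)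
    refine ⟨hmn.aemeasurable, hm0.aemeasurable, ?_⟩
    have e : Wf m 0 n = Wf m 0 0 ∘ (fun (ω : Om) (i : ℕ ⊕ ℕ) => ω (shift n i)) := by
      funext ω
      exact Wf_shift n ω
    rw [e, ← Measure.map_map hm0 (by fun_prop), map_shift]
  limit f := by
    have hm0 : Measurable (Wf m 0 0) := measurable_Wf _ 0 0 (fun _ _ => measurable_coord _)
      (fun _ _ => measurable_coord _)
    refine tendsto_const_nhds.congr' ?_
    filter_upwards [eventually_ge_atTop m] with n hn
    have e : ∀ ω, fromEmpty (fun n => A m (n + m)) (fun n => B m (n + m)) n ω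
        = Wf m 0 0 (fun i => ω (shift n i)) := by
      intro ω
      rw [fromEmpty_eq, Wf_eq hn, Wf_shift]
    simp_rw [e]
    have hsh : Measurable (fun (ω : Om) (i : ℕ ⊕ ℕ) => ω (shift n i)) := by fun_prop
    have := integral_map (μ := PP) hsh.aemeasurable
      (f := fun ω => f (Wf m 0 0 ω)) (f.continuous.measurable.comp hm0).aestronglyMeasurable
    rw [map_shift] at this
    exact this

lemma not_associated (hm : 1 ≤ m) [NeZero (m + 1)] (n : ℕ) :
    ¬ IsAssociated PP (fun ω => diffFamily (afterArrival (Wf m 0 n ω) (A m (n + m) ω))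
      (B m (n + m) ω)) := by
  intro hass
  have hm1 : (1:ℝ) ≤ m := by exact_mod_cast hm
  have hm0 : (0:ℝ) ≤ m := by linarith
  set X : Om → Fin (m + 1) ⊕ Unit → ℝ := fun ω =>
    diffFamily (afterArrival (Wf m 0 n ω) (A m (n + m) ω)) (B m (n + m) ω) with hX
  have hV : ∀ ω, afterArrival (Wf m 0 n ω) (A m (n + m) ω) = Vf m 0 n ω := fun ω =>
    afterArrival_Wf (by omega) ω
  have hlast : Fin.last m ≠ 0 := by
    intro h
    have := congrArg Fin.val h
    simp at this
    omega
  have hX0 : ∀ ω, X ω (Sum.inl 0)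
      = A m n ω - ∑ l ∈ Finset.Ico n (n + m), B m l ω := by
    intro ω
    simp only [hX, diffFamily, if_true, hV]
    unfold Vf
    simp
  have hXl : ∀ ω, X ω (Sum.inl (Fin.last m))
      = A m (n + m) ω - (A m n ω - ∑ l ∈ Finset.Ico n (n + m), B m l ω) := by
    intro ω
    simp only [hX, diffFamily, if_neg hlast, hV]
    unfold Vf
    simp
  set c1 : ℝ := 2 * m with hc1
  set c2 : ℝ := 2 * m ^ 2 + 2 * m with hc2
  set f : (Fin (m + 1) ⊕ Unit → ℝ) → ℝ := fun x => if c1 ≤ x (Sum.inl 0) then 1 else 0 with hf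
  set g : (Fin (m + 1) ⊕ Unit → ℝ) → ℝ :=
    fun x => if c2 ≤ x (Sum.inl (Fin.last m)) then 1 else 0 with hg
  have hfm : Measurable f := Measurable.ite (measurableSet_le measurable_const
    (measurable_pi_apply _)) measurable_const measurable_const
  have hgm : Measurable g := Measurable.ite (measurableSet_le measurable_const
    (measurable_pi_apply _)) measurable_const measurable_const
  have hfmono : Monotone f := by
    intro x y hxy
    simp only [hf]
    have := hxy (Sum.inl 0)
    split_ifs <;> linarith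
  have hgmono : Monotone g := by
    intro x y hxy
    simp only [hg]
    have := hxy (Sum.inl (Fin.last m))
    split_ifs <;> linarith
  have hfb : ∀ x, |f x| ≤ 1 := by
    intro x; simp only [hf]; split_ifs <;> simp
  have hgb : ∀ x, |g x| ≤ 1 := by
    intro x; simp only [hg]; split_ifs <;> simp
  have key := hass f g hfm hgm hfmono hgmono ⟨1, hfb⟩ ⟨1, hgb⟩
  -- the two events
  set F : Set Om := {ω | c1 ≤ X ω (Sum.inl 0)} with hF
  set G : Set Om := {ω | c2 ≤ X ω (Sum.inl (Fin.last m))} with hG
  have hX0m : Measurable (fun ω => X ω (Sum.inl 0)) := by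
    simp_rw [hX0]
    exact (measurable_A _ (measurable_coord _)).sub
      (Finset.measurable_fun_sum _ fun l _ => measurable_B _ (measurable_coord _))
  have hXlm : Measurable (fun ω => X ω (Sum.inl (Fin.last m))) := by
    simp_rw [hXl]
    exact (measurable_A _ (measurable_coord _)).sub ((measurable_A _ (measurable_coord _)).sub
      (Finset.measurable_fun_sum _ fun l _ => measurable_B _ (measurable_coord _)))
  have hFm : MeasurableSet F := measurableSet_le measurable_const hX0m
  have hGm : MeasurableSet G := measurableSet_le measurable_const hXlm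
  have hfX : (fun ω => f (X ω)) = F.indicator 1 := by
    funext ω
    simp only [hf, hF, Set.indicator, Set.mem_ofPred_eq, Pi.one_apply]
  have hgX : (fun ω => g (X ω)) = G.indicator 1 := by
    funext ω
    simp only [hg, hG, Set.indicator, Set.mem_ofPred_eq, Pi.one_apply]
  have hdisj : ∀ ω, ω ∈ F → ω ∉ G := by
    intro ω h1 h2
    simp only [hF, hG, Set.mem_ofPred_eq, hX0, hXl] at h1 h2
    have := (sv_mem (m := m) (ω (Sum.inl (n + m)))).2
    have h3 : A m (n + m) ω = sv m (ω (Sum.inl (n + m))) := rfl
    rw [h3] at h2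
    linarith
  have hmul : (fun ω => f (X ω)) * (fun ω => g (X ω)) = fun _ => 0 := by
    rw [hfX, hgX]
    funext ω
    rw [Pi.mul_apply]
    by_cases h : ω ∈ F
    · rw [Set.indicator_of_notMem (hdisj ω h), mul_zero]
    · rw [Set.indicator_of_notMem h, zero_mul]
  have hfL : MemLp (fun ω => f (X ω)) 2 PP := by
    refine MemLp.of_bound (C := 1) ?_ (ae_of_all _ fun ω => by
      rw [Real.norm_eq_abs]; exact hfb _)
    rw [hfX]
    exact (measurable_one.indicator hFm).aestronglyMeasurable
  have hgL : MemLp (fun ω => g (X ω)) 2 PP := by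
    refine MemLp.of_bound (C := 1) ?_ (ae_of_all _ fun ω => by
      rw [Real.norm_eq_abs]; exact hgb _)
    rw [hgX]
    exact (measurable_one.indicator hGm).aestronglyMeasurable
  rw [covariance_eq_sub hfL hgL, hmul, hfX, hgX, integral_indicator_one hFm,
    integral_indicator_one hGm, integral_zero] at key
  -- both events have positive probability
  have hFpos : 0 < PP.real F := by
    refine cylinder_pos (insert (Sum.inl n) ((Finset.Ico n (n + m)).image Sum.inr))
      (Sum.elim (fun _ => true) (fun _ => false)) F ?_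
    intro ω hω
    simp only [hF, Set.mem_ofPred_eq, hX0]
    have h1 : ω (Sum.inl n) = true := hω _ (Finset.mem_insert_self _ _)
    have h2 : ∀ l ∈ Finset.Ico n (n + m), B m l ω = 2 * m := by
      intro l hl
      have : ω (Sum.inr l) = false :=
        hω _ (Finset.mem_insert_of_mem (Finset.mem_image_of_mem _ hl))
      unfold B tv
      rw [this]
      simp
    rw [Finset.sum_congr rfl h2, Finset.sum_const, Nat.card_Ico, nsmul_eq_mul]
    unfold A sv
    rw [h1]
    have : n + m - n = m := by omega
    rw [this]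
    simp only [if_true, hc1]
    nlinarith
  have hGpos : 0 < PP.real G := by
    refine cylinder_pos (insert (Sum.inl (n + m)) (insert (Sum.inl n)
      ((Finset.Ico n (n + m)).image Sum.inr)))
      (Sum.elim (fun j => decide (j = n + m)) (fun _ => true)) G ?_
    intro ω hω
    simp only [hG, Set.mem_ofPred_eq, hXl]
    have h0 : ω (Sum.inl (n + m)) = true := by
      rw [hω _ (Finset.mem_insert_self _ _)]
      simp
    have h1 : ω (Sum.inl n) = false := by
      rw [hω _ (Finset.mem_insert_of_mem (Finset.mem_insert_self _ _))]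
      simp
      omega
    have h2 : ∀ l ∈ Finset.Ico n (n + m), B m l ω = 2 * m + 1 := by
      intro l hl
      have : ω (Sum.inr l) = true :=
        hω _ (Finset.mem_insert_of_mem (Finset.mem_insert_of_mem
          (Finset.mem_image_of_mem _ hl)))
      unfold B tv
      rw [this]
      simp
    rw [Finset.sum_congr rfl h2, Finset.sum_const, Nat.card_Ico, nsmul_eq_mul]
    unfold A sv
    rw [h0, h1]
    have : n + m - n = m := by omega
    rw [this]
    simp only [if_true, hc2]
    simp
    nlinarith
  have := mul_pos hFpos hGpos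
  linarith

lemma var_A_pos (hm : 1 ≤ m) (j : ℕ) : 0 < Var[A m j; PP] := by
  rw [variance_eq_integral (measurable_A _ (measurable_coord _)).aemeasurable, mean_A]
  have : ∫ ω, (A m j ω - (2 * (m : ℝ) ^ 2 + 3 / 2 * m)) ^ 2 ∂PP
      = ((sv m true - (2 * (m : ℝ) ^ 2 + 3 / 2 * m)) ^ 2
        + (sv m false - (2 * (m : ℝ) ^ 2 + 3 / 2 * m)) ^ 2) / 2 := by
    exact integral_coord (fun b => (sv m b - (2 * (m : ℝ) ^ 2 + 3 / 2 * m)) ^ 2) (Sum.inl j)
  rw [this]
  unfold sv
  have : (1:ℝ) ≤ m := by exact_mod_cast hm
  simp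
  nlinarith

lemma var_B_pos (j : ℕ) : 0 < Var[B m j; PP] := by
  rw [variance_eq_integral (measurable_B _ (measurable_coord _)).aemeasurable, mean_B]
  have : ∫ ω, (B m j ω - (2 * (m : ℝ) + 1 / 2)) ^ 2 ∂PP
      = ((tv m true - (2 * (m : ℝ) + 1 / 2)) ^ 2
        + (tv m false - (2 * (m : ℝ) + 1 / 2)) ^ 2) / 2 := by
    exact integral_coord (fun b => (tv m b - (2 * (m : ℝ) + 1 / 2)) ^ 2) (Sum.inr j)
  rw [this]
  unfold tv
  simp
  nlinarith

end construction

end Pool.Agent.QueueAssoc
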